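import Pool.Agent.H7.KQ.Stmts

/-! # Row BAL: differences of `bal` -/

set_option autoImplicit false

open Finset

namespace Pool.KQ

open Pool.Agent.H23.KT Pool.Agent.H46.KW

namespace BAL18

theorem step {q : ℕ} (hq : 1 ≤ q) (N : ℕ) :
    ((N / q : ℕ) : ℝ) * ((bal q (N + 1) : ℝ) - bal q N) = bal q N := by
  have h1 := bal_step hq N
  have h2 : (bal q (N + 1) : ℝ) * ((N / q : ℕ) : ℝ) = (bal q N : ℝ) * (((N / q : ℕ) : ℝ) + 1) := by
    exact_mod_cast h1
  linear_combination h2

theorem mono {q : ℕ} (hq : 1 ≤ q) (N : ℕ) : 0 ≤ (bal q (N + 1) : ℝ) - bal q N := by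
  have h1 : (bal q N : ℝ) ≤ bal q (N + 1) := by exact_mod_cast bal_mono_succ hq N
  linarith only [h1]

theorem one {q a N : ℕ} (hq : 1 ≤ q) (hN : N + 1 ≤ q * a + q) :
    (bal q N : ℝ) ≤ a * ((bal q (N + 1) : ℝ) - bal q N) := by
  have h1 : N / q ≤ a := by
    have h2 : N / q < a + 1 := by
      rw [Nat.div_lt_iff_lt_mul (by omega)]
      have h3 : (a + 1) * q = q * a + q := by ring
      omega
    omega
  have h2 : ((N / q : ℕ) : ℝ) ≤ a := by exact_mod_cast h1
  have h3 := mul_le_mul_of_nonneg_right h2 (mono hq N)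
  rw [step hq N] at h3
  exact h3

theorem lower (q N : ℕ) : (N / q) ^ q ≤ bal q N := by
  rcases Nat.eq_zero_or_pos q with h | h
  · subst h
    unfold bal
    simp
  · unfold bal
    have h1 : N % q < q := Nat.mod_lt _ h
    calc (N / q) ^ q = (N / q) ^ (q - N % q) * (N / q) ^ (N % q) := by
          rw [← pow_add]
          congr 1
          omega
      _ ≤ _ := Nat.mul_le_mul_left _ (Nat.pow_le_pow_left (by omega) _)

end BAL18

/-- not called `bal`, which would hide the function `bal` in this namespace -/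
theorem bal_row : BALStmt := by
  refine ⟨fun q a N hq hN => BAL18.one hq hN, ?_, ?_⟩
  · intro q a N M hq hNM
    induction M, hNM using Nat.le_induction with
    | base =>
      intro _
      rw [sub_self, sub_self, zero_mul, mul_zero]
    | succ M hNM ih =>
      intro hM
      have h1 := ih (by omega)
      have h2 := BAL18.one (a := a) hq hM
      have h3 : (bal q N : ℝ) ≤ bal q M := by
        exact_mod_cast bal_mono hq hNM
      push_cast
      linarith only [h1, h2, h3]
  · intro p N
    have h1 := BAL18.step (q := p + 3) (by omega) N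
    have h2 := BAL18.mono (q := p + 3) (by omega) N
    have h3 : (((N / (p + 3) : ℕ) : ℝ)) ^ (p + 3) ≤ bal (p + 3) N := by
      exact_mod_cast BAL18.lower (p + 3) N
    rcases Nat.eq_zero_or_pos (N / (p + 3)) with h | h
    · rw [h, Nat.cast_zero, zero_pow (by omega)]
      exact h2
    · have h4 : (0 : ℝ) < ((N / (p + 3) : ℕ) : ℝ) := by exact_mod_cast h
      rw [← h1, pow_succ, mul_comm] at h3
      exact le_of_mul_le_mul_left h3 h4

end Pool.KQ
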