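import Pool.Agent.H84.KEND.End

/-!
# The end of the argument: labels which are hypersurfaces

A family with a visible and full label, which is given by one polynomial equation of bounded degree
(and by a ball), has a small violation. Only the ratio of the value of the polynomial and of one
partial derivative near the point of incidence is used.
-/

set_option autoImplicit false

namespace Pool.KQ

open Finset Real MvPolynomial
open Pool.Agent.H49.Ent Pool.Agent.H32.Dense Pool.STK Pool.KA Pool.Agent.H50.PW Pool.KEND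

variable {m J : ℕ}

/-- The equations: the coordinates except one, and the polynomial. -/
noncomputable def hyp (Q : MvPolynomial (Fin m) ℝ) (j : Fin m) (w : Fin m → ℝ) (i : Fin m) :
    MvPolynomial (Fin m) ℝ := if i = j then Q else X i - C (w i)

theorem totalDegree_hyp_le {D : ℕ} (hD : 1 ≤ D) {Q : MvPolynomial (Fin m) ℝ}
    (hQ : Q.totalDegree ≤ D) (j : Fin m) (w : Fin m → ℝ) (i : Fin m) :
    (hyp Q j w i).totalDegree ≤ D := by
  unfold hyp
  split_ifs
  · exact hQ
  · refine (totalDegree_sub _ _).trans ?_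
    rw [totalDegree_X, totalDegree_C]
    simpa using hD

/-- The Jacobian of these equations is one partial derivative. -/
theorem det_jac_hyp (Q : MvPolynomial (Fin m) ℝ) (j : Fin m) (w x : Fin m → ℝ) :
    (jac (hyp Q j w) x).det = eval x (pderiv j Q) := by
  classical
  have h1 : jac (hyp Q j w) x = (1 : Matrix (Fin m) (Fin m) ℝ).updateRow j
      (fun k => eval x (pderiv k Q)) := by
    ext i k
    unfold jac hyp
    simp only [Matrix.of_apply]
    by_cases hi : i = j
    · subst hi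
      rw [if_pos rfl, Matrix.updateRow_self]
    · rw [if_neg hi, Matrix.updateRow_ne hi, map_sub, pderiv_C, sub_zero]
      by_cases hk : k = i
      · subst hk
        rw [pderiv_X_self, Matrix.one_apply_eq, map_one]
      · rw [pderiv_X_of_ne (Ne.symm hk), map_zero, Matrix.one_apply_ne (Ne.symm hk)]
  have h2 : (1 : Matrix (Fin m) (Fin m) ℝ).updateRow j (fun k => eval x (pderiv k Q)) =
      ((1 : Matrix (Fin m) (Fin m) ℝ).updateCol j (fun k => eval x (pderiv k Q))).transpose := by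
    rw [← Matrix.updateRow_transpose, Matrix.transpose_one]
  rw [h1, h2, Matrix.det_transpose, ← Matrix.cramer_apply, Matrix.cramer_one]
  rfl

theorem one_le_CI (m D : ℕ) : 1 ≤ CI m D := by
  unfold CI
  have h1 : (1 : ℝ) ≤ ((D : ℝ) + 1) ^ m := one_le_pow₀ (by
    have : (0 : ℝ) ≤ D := Nat.cast_nonneg D
    linarith)
  have h2 : (1 : ℝ) ≤ (2 * QQ m) ^ m := one_le_pow₀ (by linarith [one_le_QQ m])
  have h3 : (1 : ℝ) ≤ 4 * (nn m : ℝ) + 4 := by
    have : (0 : ℝ) ≤ nn m := Nat.cast_nonneg _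
    linarith
  exact one_le_mul_of_one_le_of_one_le (one_le_mul_of_one_le_of_one_le h1 h2) h3

/-- **The end for hypersurface labels.** -/
theorem end_hyp (F : Fam m J) {g : ℕ} (hg : 2 * g ≤ J) (hJ : 2 ≤ J) {κ : Type} (z : F.Ω → κ)
    {e e' s τ η r θ : ℝ} (he : F.Tm e)
    (he' : ((J : ℝ) - g) * Real.log 2 - e' ≤ CH F.p F.T (bl F g z)) (he0 : 0 ≤ e')
    (hs : CH F.p z (fun ω => (F.X J ω, F.W ω)) ≤ CH F.p z (fun ω => (F.l ω, F.W ω)) + s)
    (hu : ∀ ω i, |F.u ω i| ≤ 1) (Gd : F.Ω → Prop)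
    (hη : (open Classical in Ex F.p (fun ω => if Gd ω then 0 else 1)) ≤ η)
    {D : ℕ} (hD : 1 ≤ D) (Q : κ × (ℕ × F.ζ) → ℕ → MvPolynomial (Fin m) ℝ)
    (hQ : ∀ c t, (Q c t).totalDegree ≤ D)
    (j : κ × (ℕ × F.ζ) → ℕ → Fin m) (w : κ × (ℕ × F.ζ) → ℕ → Fin m → ℝ)
    (G : κ × (ℕ × F.ζ) → ℕ → ℝ) (hG : ∀ c t, 0 < G c t)
    (hr : 1 / 2 ^ J ≤ r) (hθ : 1 / 2 ^ J ≤ θ)
    (hin : ∀ ω, 0 < F.p ω → Gd ω → ∀ x' : Fin m → ℝ, (∀ i, |x' i - F.x ω i| ≤ 1 / 2 ^ J) →
      (∀ i, i ≠ j (lab F g z ω) (F.T ω) → |x' i - w (lab F g z ω) (F.T ω) i| ≤ r) ∧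
      |eval x' (Q (lab F g z ω) (F.T ω))| ≤ θ * G (lab F g z ω) (F.T ω) ∧
      G (lab F g z ω) (F.T ω) ≤
        |eval x' (pderiv (j (lab F g z ω) (F.T ω)) (Q (lab F g z ω) (F.T ω)))|)
    (hf : Real.log (CI m D) + ((m : ℝ) - 1) * Real.log r + Real.log θ +
      m * ((J : ℝ) * Real.log 2) ≤ CH F.p (F.X J) (fun ω => (z ω, F.W ω)) + τ) :
    F.V J ≤ m * (g * Real.log 2) + τ + s + e + KE m * (e' + 1) +
      2 * m * (m + 1) * η * (J * Real.log 2) + Real.log 2 + Real.log (KC m D) := by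
  classical
  have h2J : (0 : ℝ) < 2 ^ J := by positivity
  have hr0 : 0 < r := lt_of_lt_of_le (by positivity) hr
  have hθ0 : 0 < θ := lt_of_lt_of_le (by positivity) hθ
  have hCI := one_le_CI m D
  -- the case `m = 0` is excluded by the existence of an index
  obtain ⟨ω₀, -⟩ : ∃ ω, 0 < F.p ω := by
    by_contra hcon
    push Not at hcon
    have h1 := F.isLaw.sum_one
    have h2 : ∑ ω, F.p ω ≤ 0 := Finset.sum_nonpos fun ω _ => hcon ω
    linarith
  have hm : 1 ≤ m := by
    have := (j (lab F g z ω₀) (F.T ω₀)).2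
    omega
  have hprod : ∀ c t, ∏ i, (if i = j c t then θ * G c t else r) = θ * G c t * r ^ (m - 1) := by
    intro c t
    rw [Finset.prod_ite, Finset.prod_const, Finset.prod_const, Finset.filter_eq']
    simp only [Finset.mem_univ, if_true, Finset.card_singleton, pow_one]
    congr 2
    rw [Finset.filter_ne', Finset.card_erase_of_mem (Finset.mem_univ _), Finset.card_univ,
      Fintype.card_fin]
  have hR1 : (1 : ℝ) ≤ CI m D * (r ^ (m - 1) * θ) * 2 ^ (m * J) := by
    have h1 : (1 / 2 ^ J : ℝ) ^ (m - 1) * (1 / 2 ^ J) ≤ r ^ (m - 1) * θ :=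
      mul_le_mul (pow_le_pow_left₀ (by positivity) hr _) hθ (by positivity) (by positivity)
    have h2 : (1 / 2 ^ J : ℝ) ^ (m - 1) * (1 / 2 ^ J) = 1 / 2 ^ (m * J) := by
      rw [← pow_succ, Nat.sub_add_cancel hm, one_div, one_div, inv_pow, ← pow_mul, Nat.mul_comm]
    rw [h2] at h1
    have h3 : (0 : ℝ) < 2 ^ (m * J) := by positivity
    have h4 : (1 : ℝ) ≤ (r ^ (m - 1) * θ) * 2 ^ (m * J) := by
      rw [div_le_iff₀ h3] at h1
      exact h1
    rw [mul_assoc]
    exact one_le_mul_of_one_le_of_one_le hCI h4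
  refine end_impl F hg hJ z he he' he0 hs hu Gd hη
    (fun c t => hyp (Q c t) (j c t) (w c t))
    (fun c t i => totalDegree_hyp_le hD (hQ c t) _ _ _)
    (fun c t i => if i = j c t then θ * G c t else r)
    (fun c t i => by
      show 0 < if i = j c t then θ * G c t else r
      split_ifs
      · exact mul_pos hθ0 (hG c t)
      · exact hr0)
    G hG (fun _ => CI m D * (r ^ (m - 1) * θ) * 2 ^ (m * J)) (fun _ => hR1) ?_ ?_ ?_
  · intro c t
    rw [hprod]
    have h3 : (0 : ℝ) < 2 ^ (m * J) := by positivity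
    have h4 := hG c t
    refine le_of_eq ?_
    field_simp
  · intro ω hω hgd d' hd'
    have hx : ∀ i, |(fun k => F.u ω k + (F.T ω : ℝ) / 2 ^ J * d' k) i - F.x ω i| ≤ 1 / 2 ^ J := by
      intro i
      have h5 : (fun k => F.u ω k + (F.T ω : ℝ) / 2 ^ J * d' k) i - F.x ω i =
          (F.T ω : ℝ) / 2 ^ J * (d' i - F.d ω i) := by
        unfold Fam.x Fam.t
        ring
      rw [h5, abs_mul]
      have h6 : |d' i - F.d ω i| ≤ 1 / 2 ^ J / 2 := by
        have := (dist_le_pi_dist d' (F.d ω) i).trans hd'.le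
        rwa [Real.dist_eq] at this
      have h7 : |(F.T ω : ℝ) / 2 ^ J| ≤ 1 := by
        rw [abs_of_nonneg (by positivity), div_le_one h2J]
        exact_mod_cast (F.tim ω).le
      calc |(F.T ω : ℝ) / 2 ^ J| * |d' i - F.d ω i| ≤ 1 * (1 / 2 ^ J / 2) :=
            mul_le_mul h7 h6 (abs_nonneg _) zero_le_one
        _ ≤ 1 / 2 ^ J := by
          have : (0 : ℝ) < 1 / 2 ^ J := by positivity
          linarith
    obtain ⟨hA, hB, hC⟩ := hin ω hω hgd _ hx
    refine ⟨?_, ?_⟩
    · intro i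
      show |eval _ (hyp _ _ _ i)| ≤ if i = _ then _ else _
      unfold hyp
      by_cases hi : i = j (lab F g z ω) (F.T ω)
      · rw [if_pos hi, if_pos hi]
        exact hB
      · rw [if_neg hi, if_neg hi, map_sub, eval_X, eval_C]
        exact hA i hi
    · rw [det_jac_hyp]
      exact hC
  · have h8 : Real.log (CI m D * (r ^ (m - 1) * θ) * 2 ^ (m * J)) =
        Real.log (CI m D) + ((m : ℝ) - 1) * Real.log r + Real.log θ +
          m * ((J : ℝ) * Real.log 2) := by
      rw [Real.log_mul (by positivity) (by positivity), Real.log_mul (by positivity)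
        (by positivity), Real.log_mul (by positivity) (by positivity), Real.log_pow, Real.log_pow]
      push_cast [Nat.cast_sub hm]
      ring
    have h9 : Ex F.p (fun _ => Real.log (CI m D * (r ^ (m - 1) * θ) * 2 ^ (m * J))) =
        Real.log (CI m D * (r ^ (m - 1) * θ) * 2 ^ (m * J)) := Ex_const F.isLaw.sum_one _
    show Ex F.p (fun _ => Real.log (CI m D * (r ^ (m - 1) * θ) * 2 ^ (m * J))) ≤ _
    rw [h9, h8]
    exact hf

/-- The first digits of the time take few values. -/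
theorem T1_lt (F : Fam m J) {g : ℕ} (hg : g ≤ J) (ω : F.Ω) : F.T1 g ω < 2 ^ g := by
  unfold Fam.T1
  rw [Nat.div_lt_iff_lt_mul (by positivity), ← pow_add]
  have h := F.tim ω
  have e : g + (J - g) = J := by omega
  rwa [e]

theorem CH_T1_le (F : Fam m J) {g : ℕ} (hg : g ≤ J) {U : Type*} (Z : F.Ω → U) :
    CH F.p (F.T1 g) Z ≤ g * Real.log 2 := by
  have h := CH_le_card F.isLaw.nonneg F.isLaw.sum_one (F.T1 g) Z (fun _ => Finset.range (2 ^ g))
    (fun ω _ => Finset.mem_range.mpr (T1_lt F hg ω))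
  rw [Ex_const F.isLaw.sum_one] at h
  refine h.trans (le_of_eq ?_)
  rw [Finset.card_range]
  push_cast
  rw [Real.log_pow]

/-- The time is nearly uniform in its window, given the line and a label which is nearly a
function of the line and the window. -/
theorem time_label (F : Fam m J) {g : ℕ} (hg : g ≤ J) {κ : Type} (z : F.Ω → κ) {e c : ℝ}
    (he : F.Tm e) (hz : CH F.p z (fun ω => (F.l ω, (F.T1 g ω, F.Z ω))) ≤ c) :
    ((J : ℝ) - g) * Real.log 2 - (e + c) ≤ CH F.p F.T (bl F g z) := by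
  have hp := F.isLaw.nonneg
  have h1 := CH_le_add hp F.T (F.T1 g) (fun ω => (F.l ω, F.Z ω))
  have h2 := CH_T1_le F hg (fun ω => (F.l ω, F.Z ω))
  have h3 : CH F.p F.T (fun ω => (F.T1 g ω, (F.l ω, F.Z ω))) =
      CH F.p F.T (fun ω => (F.l ω, (F.T1 g ω, F.Z ω))) := by
    refine CH_congr hp ?_ ?_ ?_ ?_
    · intro ω ω' _ _ h
      exact (Prod.ext_iff.mp h).1
    · intro ω ω' _ _ h
      exact (Prod.ext_iff.mp h).1
    · intro ω ω' _ _ h
      simp only [Prod.mk.injEq] at h ⊢
      tauto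
    · intro ω ω' _ _ h
      simp only [Prod.mk.injEq] at h ⊢
      tauto
  have h4 := CH_le_add hp F.T z (fun ω => (F.l ω, (F.T1 g ω, F.Z ω)))
  have h5 : CH F.p F.T (fun ω => (z ω, (F.l ω, (F.T1 g ω, F.Z ω)))) = CH F.p F.T (bl F g z) := by
    refine CH_congr hp ?_ ?_ ?_ ?_
    · intro ω ω' _ _ h
      exact (Prod.ext_iff.mp h).1
    · intro ω ω' _ _ h
      exact (Prod.ext_iff.mp h).1
    · intro ω ω' _ _ h
      simp only [bl, lab, Prod.mk.injEq] at h ⊢
      tauto
    · intro ω ω' _ _ h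
      simp only [bl, lab, Prod.mk.injEq] at h ⊢
      tauto
  have h6 : (J : ℝ) * Real.log 2 - e ≤ CH F.p F.T (fun ω => (F.l ω, F.Z ω)) := he
  linarith

end Pool.KQ
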